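import Mathlib
import Pool.Agent.X185.SG.Main

/-!
# MP_8a688e_nt: a non-real `c` with `Re c < -1` and connected closure of `σ_c(ℕ)`

Affirmative answer to Q1.  Here `sigmaC c n = ∑_{d ∣ n} d ^ c` (file `Pool/Agent/X185/SG/Arith.lean`).
For `Im c = π / (8 log 8)` and `Re c` in an interval `[-1-δ₀, -1)` the closure of
`{σ_c(n) : n ≥ 1}` is connected.
-/

set_option autoImplicit false

namespace Pool.Agent.Results.MP_8a688e_nt.Connected

open Pool.Agent.X185.SG

theorem result :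
    (∃ c : ℂ, c.im ≠ 0 ∧ c.re < -1 ∧ IsConnected (closure (sigmaC c '' {n : ℕ | 0 < n}))) ∧
    ∃ δ₀ : ℝ, 0 < δ₀ ∧ ∀ c : ℂ, c.im = Real.pi / (8 * Real.log 8) → -1 - δ₀ ≤ c.re → c.re < -1 →
      IsConnected (closure (sigmaC c '' {n : ℕ | 0 < n})) := by
  obtain ⟨δ0, h0, h⟩ := main
  have h2 : ∀ c : ℂ, c.im = Real.pi / (8 * Real.log 8) → -1 - δ0 ≤ c.re → c.re < -1 →
      IsConnected (closure (sigmaC c '' {n : ℕ | 0 < n})) := by
    intro c h1 h2 h3
    have e : c = cc (-1 - c.re) := by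
      apply Complex.ext
      · show c.re = -(1 + (-1 - c.re)); ring
      · show c.im = τ0; rw [h1]; rfl
    rw [e]
    exact h _ (by linarith) (by linarith)
  refine ⟨⟨⟨-1 - δ0, Real.pi / (8 * Real.log 8)⟩, ?_, ?_, ?_⟩, δ0, h0, h2⟩
  · have := Real.pi_pos
    have : 0 < Real.log 8 := Real.log_pos (by norm_num)
    show Real.pi / (8 * Real.log 8) ≠ 0
    positivity
  · show -1 - δ0 < -1
    linarith
  · exact h2 _ rfl (le_refl _) (by show -1 - δ0 < -1; linarith)

end Pool.Agent.Results.MP_8a688e_nt.Connected
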